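import Mathlib
import Pool.Agent.R289.NumMax

set_option autoImplicit false

/-!
# Two nontrivial Jordan blocks give strong numerical hypercyclicity
-/

namespace Pool.Agent.Results.MP_51ad50_an.TwoJordanBlocks

open Set ComplexConjugate Pool.Agent.R289.NumHyp

universe u

/-- numerical hypercyclicity -/
def NumericallyHypercyclic {X : Type u} [NormedAddCommGroup X] [NormedSpace ℂ X]
    (T : X →L[ℂ] X) : Prop :=
  ∃ (x : X) (f : X →L[ℂ] ℂ), ‖x‖ = 1 ∧ ‖f‖ = 1 ∧ f x = 1 ∧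
    Dense (Set.range fun n : ℕ => f ((T ^ n) x))

/-- strong numerical hypercyclicity: every operator similar to `T` is numerically hypercyclic -/
def StronglyNumericallyHypercyclic {X : Type u} [NormedAddCommGroup X] [NormedSpace ℂ X]
    (T : X →L[ℂ] X) : Prop :=
  ∀ (Y : Type u) [NormedAddCommGroup Y] [NormedSpace ℂ Y] [CompleteSpace Y] (S : Y →L[ℂ] Y)
    (J : X ≃L[ℂ] Y), (∀ x, J.symm (S (J x)) = T x) → NumericallyHypercyclic S

noncomputable section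

section core

variable {X : Type u} [NormedAddCommGroup X] [NormedSpace ℂ X]

/-- the map of the blocks into the space -/
def LL (e₁ e₁' e₂ e₂' : X) : E4 →L[ℂ] X :=
  LinearMap.toContinuousLinearMap
    { toFun := fun w => w.1.1 • e₁ + w.1.2 • e₁' + (w.2.1 • e₂ + w.2.2 • e₂')
      map_add' := by
        intro x y
        simp only [Prod.fst_add, Prod.snd_add, add_smul]
        abel
      map_smul' := by
        intro c x
        simp only [Prod.smul_fst, Prod.smul_snd, smul_eq_mul, RingHom.id_apply, smul_add,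
          mul_smul] }

lemma LL_apply (e₁ e₁' e₂ e₂' : X) (w : E4) :
    LL e₁ e₁' e₂ e₂' w = w.1.1 • e₁ + w.1.2 • e₁' + (w.2.1 • e₂ + w.2.2 • e₂') := rfl

lemma block_pow {T : X →L[ℂ] X} {l : ℂ} {e e' : X} (h : T e = l • e) (h' : T e' = l • (e' + e))
    (a a' : ℂ) (n : ℕ) :
    (T ^ n) (a • e + a' • e') = (l ^ n * (a + n * a')) • e + (l ^ n * a') • e' := by
  induction n with
  | zero => simp
  | succ n ih =>
    rw [pow_succ', ContinuousLinearMap.mul_apply, ih, map_add, map_smul, map_smul, h, h',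
      smul_add, smul_add, smul_smul, smul_smul, smul_smul]
    rw [add_comm ((l ^ n * a' * l) • e') ((l ^ n * a' * l) • e), ← add_assoc, ← add_smul]
    congr 2
    · push_cast
      ring
    · ring

lemma inj_LL {T : X →L[ℂ] X} {l₁ l₂ : ℂ} {e₁ e₁' e₂ e₂' : X} (hl : l₁ ≠ l₂) (hl1 : l₁ ≠ 0)
    (hl2 : l₂ ≠ 0) (h1 : T e₁ = l₁ • e₁) (h1' : T e₁' = l₁ • (e₁' + e₁)) (h2 : T e₂ = l₂ • e₂)
    (h2' : T e₂' = l₂ • (e₂' + e₂)) (he1 : e₁ ≠ 0) (he2 : e₂ ≠ 0) :
    Function.Injective (LL e₁ e₁' e₂ e₂') := by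
  -- one block
  have key : ∀ {l : ℂ} {e e' : X}, l ≠ 0 → T e = l • e → T e' = l • (e' + e) → e ≠ 0 →
      ∀ a a' : ℂ, a • e + a' • e' = 0 → a = 0 ∧ a' = 0 := by
    intro l e e' hl h h' he a a' h0
    have h3 : T (a • e + a' • e') - l • (a • e + a' • e') = (l * a') • e := by
      rw [map_add, map_smul, map_smul, h, h']
      module
    rw [h0, map_zero, smul_zero, sub_zero] at h3
    have h4 : a' = 0 := by
      rcases smul_eq_zero.1 h3.symm with h5 | h5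
      · rcases mul_eq_zero.1 h5 with h6 | h6
        · exact absurd h6 hl
        · exact h6
      · exact absurd h5 he
    rw [h4, zero_smul, add_zero] at h0
    rcases smul_eq_zero.1 h0 with h5 | h5
    · exact ⟨h5, h4⟩
    · exact absurd h5 he
  have hsq : ∀ {l : ℂ} {e e' : X}, T e = l • e → T e' = l • (e' + e) → ∀ a a' : ℂ,
      T (T (a • e + a' • e') - l • (a • e + a' • e')) -
        l • (T (a • e + a' • e') - l • (a • e + a' • e')) = 0 := by
    intro l e e' h h' a a'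
    have h3 : T (a • e + a' • e') - l • (a • e + a' • e') = (l * a') • e := by
      rw [map_add, map_smul, map_smul, h, h']
      module
    rw [h3, map_smul, h]
    module
  rw [injective_iff_map_eq_zero]
  intro w hw
  rw [LL_apply] at hw
  set p := w.1.1 • e₁ + w.1.2 • e₁' with hp
  set q := w.2.1 • e₂ + w.2.2 • e₂' with hq
  have hqp : q = -p := by rw [eq_neg_iff_add_eq_zero, add_comm]; exact hw
  have a1 := hsq h1 h1' w.1.1 w.1.2
  have a2 := hsq h2 h2' w.2.1 w.2.2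
  rw [← hp] at a1
  rw [← hq, hqp] at a2
  -- D p
  set D := T p - l₁ • p with hD
  have a3 : T D = l₁ • D := by rw [← sub_eq_zero]; exact a1
  have hTp : T p = D + l₁ • p := by rw [hD]; abel
  have a4 : T (T p - l₂ • p) - l₂ • (T p - l₂ • p) = 0 := by
    have : T (T (-p) - l₂ • (-p)) - l₂ • (T (-p) - l₂ • (-p)) =
        -(T (T p - l₂ • p) - l₂ • (T p - l₂ • p)) := by
      simp only [map_neg, map_sub, smul_neg, map_smul]
      module
    rw [this, neg_eq_zero] at a2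
    exact a2
  have a5 : T (T p - l₂ • p) - l₂ • (T p - l₂ • p) =
      (2 * (l₁ - l₂)) • D + ((l₁ - l₂) ^ 2) • p := by
    rw [hTp, map_sub, map_add, map_smul, map_smul, a3, hTp]
    module
  rw [a5] at a4
  have hδ : l₁ - l₂ ≠ 0 := sub_ne_zero.2 hl
  have a6 : D = 0 := by
    have h3 : T ((2 * (l₁ - l₂)) • D + ((l₁ - l₂) ^ 2) • p) -
        l₁ • ((2 * (l₁ - l₂)) • D + ((l₁ - l₂) ^ 2) • p) = ((l₁ - l₂) ^ 2) • D := by
      rw [map_add, map_smul, map_smul, a3, hTp]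
      module
    rw [a4, map_zero, smul_zero, sub_zero] at h3
    rcases smul_eq_zero.1 h3.symm with h4 | h4
    · exact absurd h4 (pow_ne_zero 2 hδ)
    · exact h4
  rw [a6, smul_zero, zero_add] at a4
  have a7 : p = 0 := by
    rcases smul_eq_zero.1 a4 with h4 | h4
    · exact absurd h4 (pow_ne_zero 2 hδ)
    · exact h4
  have a8 : q = 0 := by rw [hqp, a7, neg_zero]
  obtain ⟨b1, b2⟩ := key hl1 h1 h1' he1 _ _ a7
  obtain ⟨b3, b4⟩ := key hl2 h2 h2' he2 _ _ a8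
  exact Prod.ext (Prod.ext b1 b2) (Prod.ext b3 b4)

theorem numHyp_of_blocks {T : X →L[ℂ] X} {l₁ l₂ : ℂ} {e₁ e₁' e₂ e₂' : X}
    (h1 : T e₁ = l₁ • e₁) (h1' : T e₁' = l₁ • (e₁' + e₁)) (h2 : T e₂ = l₂ • e₂)
    (h2' : T e₂' = l₂ • (e₂' + e₂)) (he1 : e₁ ≠ 0) (he2 : e₂ ≠ 0) (hn : ‖l₁‖ = ‖l₂‖)
    (hone : 1 ≤ ‖l₁‖)
    (hind : ∀ m k : ℤ, (l₁ / ‖l₁‖) ^ m * (l₂ / ‖l₂‖) ^ k = 1 → m = 0 ∧ k = 0) :
    NumericallyHypercyclic T := by
  have hl1 : l₁ ≠ 0 := by rw [← norm_pos_iff]; linarith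
  have hl2 : l₂ ≠ 0 := by rw [← norm_pos_iff, ← hn]; linarith
  have hl : l₁ ≠ l₂ := by
    intro h
    have h3 := hind 1 (-1) (by
      rw [h, zpow_one, zpow_neg, zpow_one]
      refine mul_inv_cancel₀ (div_ne_zero hl2 ?_)
      exact_mod_cast norm_ne_zero_iff.2 hl2)
    exact one_ne_zero h3.1
  set L := LL e₁ e₁' e₂ e₂' with hL
  have hinj : Function.Injective L := inj_LL hl hl1 hl2 h1 h1' h2 h2' he1 he2
  obtain ⟨r₀, hr₀, hmax⟩ := exists_max L hinj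
  obtain ⟨β, hβ, hdense⟩ := exists_beta hn hone hind hr₀
  obtain ⟨v, hv1, hv2, hv3, hv4⟩ := hmax β hβ
  -- the functional on the range
  let eL := LinearEquiv.ofInjective L.toLinearMap hinj
  let p : Submodule ℂ X := LinearMap.range L.toLinearMap
  let f0 : p →ₗ[ℂ] ℂ := (ffL β v) ∘ₗ (eL.symm : p →ₗ[ℂ] E4)
  have hf0 : ∀ x : p, ‖f0 x‖ ≤ 1 * ‖x‖ := by
    intro x
    rw [one_mul]
    have h3 : L (eL.symm x) = x := by
      have := eL.apply_symm_apply x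
      exact congrArg Subtype.val this
    show ‖ff β v (eL.symm x)‖ ≤ ‖x‖
    refine (hv4 _).trans_eq ?_
    rw [h3]
    rfl
  obtain ⟨g, hg1, hg2⟩ := exists_extension_norm_eq p (f0.mkContinuous 1 hf0)
  have hgL : ∀ w : E4, g (L w) = ff β v w := by
    intro w
    have h3 := hg1 (eL w)
    have h4 : ((eL w : p) : X) = L w := rfl
    rw [h4] at h3
    rw [h3]
    show ff β v (eL.symm (eL w)) = ff β v w
    rw [eL.symm_apply_apply]
  have hgn : ‖g‖ ≤ 1 := by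
    rw [hg2]
    exact LinearMap.mkContinuous_norm_le _ zero_le_one _
  have hgv : g (L v) = 1 := by rw [hgL, ff_self hv1 hv2]
  have h5 : 1 ≤ ‖g‖ * ‖L v‖ := by
    have := g.le_opNorm (L v)
    rwa [hgv, norm_one] at this
  have h6 : ‖L v‖ = 1 := by
    refine le_antisymm hv3 ?_
    nlinarith [norm_nonneg g, norm_nonneg (L v)]
  have h7 : ‖g‖ = 1 := by
    refine le_antisymm hgn ?_
    rw [h6, mul_one] at h5
    exact h5
  refine ⟨L v, g, h6, h7, hgv, ?_⟩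
  have h8 : (fun n : ℕ => g ((T ^ n) (L v))) = vv l₁ l₂ β := by
    funext n
    have h9 : (T ^ n) (L v) = L ((l₁ ^ n * (v.1.1 + n * v.1.2), l₁ ^ n * v.1.2),
        (l₂ ^ n * (v.2.1 + n * v.2.2), l₂ ^ n * v.2.2)) := by
      rw [hL, LL_apply, LL_apply, map_add, block_pow h1 h1', block_pow h2 h2']
    rw [h9, hgL]
    unfold ff vv
    field_simp
    ring
  rw [h8]
  exact hdense

/-- the Jordan block vectors -/
theorem exists_block {T : X →L[ℂ] X} {l : ℂ} (hl : l ≠ 0)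
    (h : LinearMap.ker (((T - l • (1 : X →L[ℂ] X)) ^ 2 : X →L[ℂ] X) : X →ₗ[ℂ] X) ≠
      LinearMap.ker ((T - l • (1 : X →L[ℂ] X) : X →L[ℂ] X) : X →ₗ[ℂ] X)) :
    ∃ e e' : X, e ≠ 0 ∧ T e = l • e ∧ T e' = l • (e' + e) := by
  have hle : LinearMap.ker ((T - l • (1 : X →L[ℂ] X) : X →L[ℂ] X) : X →ₗ[ℂ] X) ≤
      LinearMap.ker (((T - l • (1 : X →L[ℂ] X)) ^ 2 : X →L[ℂ] X) : X →ₗ[ℂ] X) := by
    intro x hx
    have hx' : (T - l • (1 : X →L[ℂ] X)) x = 0 := hx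
    show ((T - l • (1 : X →L[ℂ] X)) ^ 2) x = 0
    rw [pow_two, ContinuousLinearMap.mul_apply, hx', map_zero]
  obtain ⟨e', he1, he2⟩ := SetLike.exists_of_lt (lt_of_le_of_ne hle h.symm)
  have he1' : ((T - l • (1 : X →L[ℂ] X)) ^ 2) e' = 0 := he1
  have he2' : (T - l • (1 : X →L[ℂ] X)) e' ≠ 0 := he2
  rw [pow_two, ContinuousLinearMap.mul_apply] at he1'
  have hap : ∀ x, (T - l • (1 : X →L[ℂ] X)) x = T x - l • x := fun x => rfl
  rw [hap, hap] at he1'
  rw [hap] at he2'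
  refine ⟨l⁻¹ • (T e' - l • e'), e', smul_ne_zero (inv_ne_zero hl) he2', ?_, ?_⟩
  · rw [map_smul, sub_eq_zero.1 he1', smul_comm]
  · rw [smul_add, smul_smul, mul_inv_cancel₀ hl, one_smul]
    abel

end core

/-- Q1 of MP_51ad50_an -/
theorem result : ∀ (X : Type u) [NormedAddCommGroup X] [NormedSpace ℂ X] [CompleteSpace X]
    (T : X →L[ℂ] X) (l₁ l₂ : ℂ),
    LinearMap.ker (((T - l₁ • (1 : X →L[ℂ] X)) ^ 2 : X →L[ℂ] X) : X →ₗ[ℂ] X) ≠
      LinearMap.ker ((T - l₁ • (1 : X →L[ℂ] X) : X →L[ℂ] X) : X →ₗ[ℂ] X) →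
    LinearMap.ker (((T - l₂ • (1 : X →L[ℂ] X)) ^ 2 : X →L[ℂ] X) : X →ₗ[ℂ] X) ≠
      LinearMap.ker ((T - l₂ • (1 : X →L[ℂ] X) : X →L[ℂ] X) : X →ₗ[ℂ] X) →
    ‖l₁‖ = ‖l₂‖ → 1 ≤ ‖l₁‖ →
    (∀ m k : ℤ, (l₁ / ‖l₁‖) ^ m * (l₂ / ‖l₂‖) ^ k = 1 → m = 0 ∧ k = 0) →
    StronglyNumericallyHypercyclic T := by
  intro X _ _ _ T l₁ l₂ hk1 hk2 hn hone hind Y _ _ _ S J hJ
  have hl1 : l₁ ≠ 0 := by rw [← norm_pos_iff]; linarith
  have hl2 : l₂ ≠ 0 := by rw [← norm_pos_iff, ← hn]; linarith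
  have hS : ∀ x, S (J x) = J (T x) := by
    intro x
    rw [← hJ x, J.apply_symm_apply]
  obtain ⟨e₁, e₁', he1, h1, h1'⟩ := exists_block hl1 hk1
  obtain ⟨e₂, e₂', he2, h2, h2'⟩ := exists_block hl2 hk2
  refine numHyp_of_blocks (e₁ := J e₁) (e₁' := J e₁') (e₂ := J e₂) (e₂' := J e₂') (l₁ := l₁)
    (l₂ := l₂) ?_ ?_ ?_ ?_ ?_ ?_ hn hone hind
  · rw [hS, h1, map_smul]
  · rw [hS, h1', map_smul, map_add]
  · rw [hS, h2, map_smul]
  · rw [hS, h2', map_smul, map_add]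
  · intro h; exact he1 (J.injective (by rw [h, map_zero]))
  · intro h; exact he2 (J.injective (by rw [h, map_zero]))

end

end Pool.Agent.Results.MP_51ad50_an.TwoJordanBlocks
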